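import Mathlib

/-!
Combinatorics on words for the three-letter E-pattern counterexample.
-/

set_option autoImplicit false

namespace Pool.Agent.Lib.MP_c27bb7_lc

open List

/-- no symbol occurs exactly once -/
def NoOnce {V : Type} [DecidableEq V] (p : List V) : Prop := ∀ v, p.count v ≠ 1

theorem NoOnce.flatMap {V S : Type} [DecidableEq V] [DecidableEq S] {p : List V} (h : NoOnce p)
    (σ : V → List S) : NoOnce (p.flatMap σ) := by
  intro l hl
  have hmem : l ∈ p.flatMap σ := List.count_pos_iff.1 (by omega)
  obtain ⟨v, hv, hlv⟩ := List.mem_flatMap.1 hmem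
  have h1 : 0 < p.count v := List.count_pos_iff.2 hv
  have h2 : 2 ≤ p.count v := by have := h v; omega
  have h3 : List.replicate 2 v <+ p := List.replicate_sublist_iff.2 h2
  have h4 := (h3.flatMap σ).count_le l
  have h5 : 0 < (σ v).count l := List.count_pos_iff.2 hlv
  simp only [List.replicate, List.flatMap_cons, List.flatMap_nil, List.count_append,
    List.count_nil] at h4
  omega

theorem NoOnce.map {V W : Type} [DecidableEq V] [DecidableEq W] {p : List V} (h : NoOnce p)
    (f : V → W) : NoOnce (p.map f) := by
  have := h.flatMap fun v => [f v]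
  rwa [← List.map_eq_flatMap] at this

/-- `w` is a product of at most `k` powers of letters -/
inductive Blocks {S : Type} : ℕ → List S → Prop
  | nil (k : ℕ) : Blocks k []
  | cons (k n : ℕ) (l : S) (w : List S) : Blocks k w → Blocks (k + 1) (List.replicate n l ++ w)

theorem Blocks.succ {S : Type} {k : ℕ} {w : List S} (h : Blocks k w) : Blocks (k + 1) w := by
  induction h with
  | nil k => exact Blocks.nil _
  | cons k n l w _ ih => exact Blocks.cons _ n l w ih

theorem Blocks.mono {S : Type} {k m : ℕ} {w : List S} (h : Blocks k w) (hk : k ≤ m) :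
    Blocks m w := by
  induction hk with
  | refl => exact h
  | step _ ih => exact ih.succ

theorem Blocks.append {S : Type} {k m : ℕ} {u w : List S} (h : Blocks k u) (h' : Blocks m w) :
    Blocks (k + m) (u ++ w) := by
  induction h with
  | nil k => simpa using h'.mono (by omega)
  | cons k n l u _ ih =>
    rw [List.append_assoc, show k + 1 + m = (k + m) + 1 by omega]
    exact Blocks.cons _ n l _ ih

theorem Blocks.single {S : Type} (l : S) : Blocks 1 [l] := by
  simpa using Blocks.cons 0 1 l [] (Blocks.nil 0)

theorem Blocks.of_all {S : Type} {w : List S} (l : S) (h : ∀ x ∈ w, x = l) : Blocks 1 w := by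
  have := Blocks.cons 0 w.length l [] (Blocks.nil 0)
  rwa [List.append_nil, ← List.eq_replicate_of_mem h] at this

theorem Blocks.around {S : Type} {k m : ℕ} {u w : List S} (l : S) (h : Blocks k u)
    (h' : Blocks m w) : Blocks (k + m + 1) (u ++ l :: w) := by
  have := h.append ((Blocks.single l).append h')
  simpa [show k + (1 + m) = k + m + 1 by omega] using this

theorem split_once {S : Type} [DecidableEq S] {w : List S} {l : S} (h : w.count l = 1) :
    ∃ x y, w = x ++ l :: y ∧ l ∉ x ∧ l ∉ y := by
  have hmem : l ∈ w := List.count_pos_iff.1 (by omega)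
  obtain ⟨x, y, rfl⟩ := List.append_of_mem hmem
  rw [List.count_append, List.count_cons_self] at h
  exact ⟨x, y, rfl, List.count_eq_zero.1 (by omega), List.count_eq_zero.1 (by omega)⟩

theorem split_first {S : Type} {w : List S} {l : S} (h : l ∈ w) :
    ∃ x y, w = x ++ l :: y ∧ l ∉ x := by
  induction w with
  | nil => simp at h
  | cons d w ih =>
    by_cases hd : l = d
    · exact ⟨[], w, by simp [hd], by simp⟩
    · obtain ⟨x, y, rfl, hx⟩ := ih (by simpa [hd] using h)
      exact ⟨d :: x, y, rfl, by simp [hd, hx]⟩

theorem split_last {S : Type} {w : List S} {l : S} (h : l ∈ w) :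
    ∃ x y, w = x ++ l :: y ∧ l ∉ y := by
  obtain ⟨x, y, hxy, hx⟩ := split_first (List.mem_reverse.2 h)
  refine ⟨y.reverse, x.reverse, ?_, by simpa using hx⟩
  rw [← List.reverse_reverse w, hxy]
  simp

section Three

variable {S : Type} [DecidableEq S] {a b c : S} (hall : ∀ x, x = a ∨ x = b ∨ x = c)

/-- no factor `a w b` with `w` free of single letters -/
def Bad (a b : S) (W : List S) : Prop :=
  ∀ u w v, W = u ++ a :: w ++ b :: v → ¬ NoOnce w

theorem Bad.sub {W X : List S} (h : Bad a b W) (u v : List S) (e : W = u ++ X ++ v) :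
    Bad a b X := by
  intro u' w v' e'
  refine h (u ++ u') w (v' ++ v) ?_
  rw [e, e']; simp

include hall

omit [DecidableEq S] in
theorem one_letter {w : List S} {p q : S} (hpq : p ≠ q) (hp : p ∉ w) (hq : q ∉ w) :
    Blocks 1 w := by
  cases w with
  | nil => exact Blocks.nil _
  | cons d w =>
    refine Blocks.of_all d fun x hx => ?_
    have hxp : x ≠ p := fun e => hp (e ▸ hx)
    have hxq : x ≠ q := fun e => hq (e ▸ hx)
    have hdp : d ≠ p := fun e => hp (e ▸ List.mem_cons_self)
    have hdq : d ≠ q := fun e => hq (e ▸ List.mem_cons_self)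
    rcases hall x with h1 | h1 | h1 <;> rcases hall d with h2 | h2 | h2 <;>
      rcases hall p with h3 | h3 | h3 <;> rcases hall q with h4 | h4 | h4 <;> simp_all

theorem two_letter {w : List S} {p : S} (hp : p ∉ w) (h : ¬ NoOnce w) : Blocks 3 w := by
  obtain ⟨l, hl⟩ : ∃ l, w.count l = 1 := by
    by_contra k
    exact h fun l hl => k ⟨l, hl⟩
  obtain ⟨x, y, rfl, hx, hy⟩ := split_once hl
  have hpl : p ≠ l := fun e => hp (by simp [e])
  exact Blocks.around l (one_letter hall hpl (fun k => hp (by simp [k])) hx)
    (one_letter hall hpl (fun k => hp (by simp [k])) hy)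

theorem blocks_bc (hab : a ≠ b) {x : List S} (ha : a ∉ x) (h : Bad a b (a :: x)) :
    Blocks 5 x := by
  by_cases hb : b ∈ x
  · obtain ⟨y, z, rfl, hz⟩ := split_last hb
    have h1 := h [] y z (by simp)
    exact Blocks.around b (two_letter hall (p := a) (fun k => ha (by simp [k])) h1)
      (one_letter hall hab (fun k => ha (by simp [k])) hz)
  · exact (one_letter hall hab ha hb).mono (by omega)

theorem blocks_ac (hab : a ≠ b) {x : List S} (hb : b ∉ x) (h : Bad a b (x ++ [b])) :
    Blocks 5 x := by
  by_cases ha : a ∈ x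
  · obtain ⟨y, z, rfl, hy⟩ := split_first ha
    have h1 := h y z [] (by simp)
    exact Blocks.around a (one_letter hall hab hy (fun k => hb (by simp [k])))
      (two_letter hall (p := b) (fun k => hb (by simp [k])) h1)
  · exact (one_letter hall hab ha hb).mono (by omega)

theorem blocks_ab (hac : a ≠ c) (hbc : b ≠ c) {x : List S} (hc : c ∉ x) (h : Bad a b x) :
    Blocks 7 x := by
  by_cases ha : a ∈ x
  · obtain ⟨y, z, rfl, hy⟩ := split_first ha
    have hy1 : Blocks 1 y := one_letter hall hac hy (fun k => hc (by simp [k]))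
    by_cases hb : b ∈ z
    · obtain ⟨s, t, rfl, ht⟩ := split_last hb
      have h1 := h y s t (by simp)
      exact Blocks.around a hy1 (Blocks.around b
        (two_letter hall (p := c) (fun k => hc (by simp [k])) h1)
        (one_letter hall hbc ht (fun k => hc (by simp [k]))))
    · exact (Blocks.around a hy1 (one_letter hall hbc hb (fun k => hc (by simp [k])))).mono
        (by omega)
  · exact (one_letter hall hac ha hc).mono (by omega)

theorem blocks_main (hab : a ≠ b) (hac : a ≠ c) (hbc : b ≠ c) {w : List S}
    (h1 : Bad a b (a :: w)) (h2 : Bad a b (w ++ [b])) : Blocks 21 w := by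
  by_cases hb : b ∈ w
  · obtain ⟨w', v, rfl, hv⟩ := split_last hb
    have hv5 : Blocks 5 v := blocks_ac hall hab hv (h2.sub (w' ++ [b]) [] (by simp))
    have hw : Blocks 15 w' := by
      obtain ⟨l, hl⟩ : ∃ l, w'.count l = 1 := by
        by_contra k
        exact h1 [] w' v (by simp) fun l hl => k ⟨l, hl⟩
      obtain ⟨x, y, rfl, hx, hy⟩ := split_once hl
      rcases hall l with rfl | rfl | rfl
      · exact (Blocks.around l (blocks_bc hall hab hx (h1.sub [] (l :: y ++ b :: v) (by simp)))
          (blocks_bc hall hab hy (h1.sub (l :: x) (b :: v) (by simp)))).mono (by omega)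
      · exact (Blocks.around l (blocks_ac hall hab hx (h1.sub [a] (y ++ l :: v) (by simp)))
          (blocks_ac hall hab hy (h1.sub (a :: x ++ [l]) v (by simp)))).mono (by omega)
      · exact Blocks.around l
          (blocks_ab hall hac hbc hx (h1.sub [a] (l :: y ++ b :: v) (by simp)))
          (blocks_ab hall hac hbc hy (h1.sub (a :: x ++ [l]) (b :: v) (by simp)))
    exact Blocks.around b hw hv5
  · exact (blocks_ac hall hab hb h2).mono (by omega)

theorem exists_short (hab : a ≠ b) (hac : a ≠ c) (hbc : b ≠ c) (n : ℕ) :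
    ∀ w : List S, w.length ≤ n → NoOnce w →
      ∃ u w' v, a :: w ++ [b] = u ++ a :: w' ++ b :: v ∧ NoOnce w' ∧ Blocks 21 w' := by
  induction n with
  | zero =>
    intro w hw h
    obtain rfl : w = [] := List.length_eq_zero_iff.1 (by omega)
    exact ⟨[], [], [], rfl, h, Blocks.nil _⟩
  | succ n ih =>
    intro w hw h
    by_cases h1 : Bad a b (a :: w)
    · by_cases h2 : Bad a b (w ++ [b])
      · exact ⟨[], w, [], rfl, h, blocks_main hall hab hac hbc h1 h2⟩
      · simp only [Bad, not_forall, not_not] at h2
        obtain ⟨u, w', v, e, hw'⟩ := h2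
        have hl := congrArg List.length e
        simp only [List.length_append, List.length_cons, List.length_nil] at hl
        obtain ⟨u2, w2, v2, e2, k1, k2⟩ := ih w' (by omega) hw'
        refine ⟨a :: u ++ u2, w2, v2 ++ v, ?_, k1, k2⟩
        have : a :: w ++ [b] = a :: u ++ (a :: w' ++ [b]) ++ v := by
          rw [List.cons_append, e]; simp
        rw [this, e2]; simp
    · simp only [Bad, not_forall, not_not] at h1
      obtain ⟨u, w', v, e, hw'⟩ := h1
      have hl := congrArg List.length e
      simp only [List.length_append, List.length_cons] at hl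
      obtain ⟨u2, w2, v2, e2, k1, k2⟩ := ih w' (by omega) hw'
      refine ⟨u ++ u2, w2, v2 ++ v ++ [b], ?_, k1, k2⟩
      have : a :: w ++ [b] = u ++ (a :: w' ++ [b]) ++ v ++ [b] := by
        rw [e]; simp
      rw [this, e2]; simp

end Three

end Pool.Agent.Lib.MP_c27bb7_lc
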