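import Mathlib
import Pool.Agent.Lib.MP_c27bb7_lc.Words

/-!
Terminal-free patterns: merging finitely many patterns, covering words with few blocks, and a
word that a given pattern misses.
-/

set_option autoImplicit false

namespace Pool.Agent.Lib.MP_c27bb7_lc

open List

/-- the terminal-free pattern `p` generates `w` -/
def Gen {S : Type} (p : List ℕ) (w : List S) : Prop := ∃ σ : ℕ → List S, p.flatMap σ = w

/-- two patterns written with disjoint variables, one after the other -/
def merge (p q : List ℕ) : List ℕ := p.map (fun n => 2 * n) ++ q.map (fun n => 2 * n + 1)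

theorem NoOnce.merge {p q : List ℕ} (hp : NoOnce p) (hq : NoOnce q) : NoOnce (merge p q) := by
  intro v
  have h1 := hp.map (fun n => 2 * n) v
  have h2 := hq.map (fun n => 2 * n + 1) v
  rw [MP_c27bb7_lc.merge, List.count_append]
  rcases Nat.even_or_odd' v with ⟨k, rfl | rfl⟩
  · have : (q.map fun n => 2 * n + 1).count (2 * k) = 0 := by
      rw [List.count_eq_zero, List.mem_map]
      rintro ⟨n, -, hn⟩
      omega
    omega
  · have : (p.map fun n => 2 * n).count (2 * k + 1) = 0 := by
      rw [List.count_eq_zero, List.mem_map]
      rintro ⟨n, -, hn⟩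
      omega
    omega

theorem Gen.merge_left {S : Type} {p : List ℕ} (q : List ℕ) {w : List S} (h : Gen p w) :
    Gen (merge p q) w := by
  obtain ⟨σ, rfl⟩ := h
  refine ⟨fun n => if n % 2 = 0 then σ (n / 2) else [], ?_⟩
  rw [merge, List.flatMap_append, List.flatMap_map, List.flatMap_map]
  have h1 : ∀ n : ℕ, (2 * n + 1) % 2 = 1 := fun n => by omega
  simp [h1]

theorem Gen.merge_right {S : Type} (p : List ℕ) {q : List ℕ} {w : List S} (h : Gen q w) :
    Gen (merge p q) w := by
  obtain ⟨σ, rfl⟩ := h
  refine ⟨fun n => if n % 2 = 0 then [] else σ (n / 2), ?_⟩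
  rw [merge, List.flatMap_append, List.flatMap_map, List.flatMap_map]
  have h1 : ∀ n : ℕ, (2 * n + 1) % 2 = 1 := fun n => by omega
  have h2 : ∀ n : ℕ, (2 * n + 1) / 2 = n := fun n => by omega
  simp [h1, h2]

theorem exists_merge (S : Type) {P : Set (List ℕ)} (hP : P.Finite) (h : ∀ p ∈ P, NoOnce p) :
    ∃ D : List ℕ, NoOnce D ∧ ∀ p ∈ P, ∀ w : List S, Gen p w → Gen D w := by
  induction P, hP using Set.Finite.induction_on with
  | empty => exact ⟨[], fun v => by simp, by simp⟩
  | @insert q P _ _ ih =>
    obtain ⟨D, hD, k⟩ := ih fun p hp => h p (Set.mem_insert_of_mem _ hp)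
    refine ⟨merge D q, hD.merge (h q (Set.mem_insert _ _)), ?_⟩
    rintro p (rfl | hp) w hw
    · exact hw.merge_right D
    · exact (k p hp w hw).merge_left q

theorem exists_pattern {S : Type} [DecidableEq S] (e : S → ℕ) (d : ℕ → S) (hd : ∀ s, d (e s) = s)
    (he : ∀ s, e s < 3) {k : ℕ} {w : List S} (h : Blocks k w) :
    ∃ (p : List ℕ) (σ : ℕ → List S), p.length ≤ 5 * k ∧ (∀ v ∈ p, v < 3 + k) ∧
      (∀ v, v < 3 → σ v = [d v]) ∧ p.flatMap σ = w ∧ (∀ v, 3 ≤ v → p.count v ≠ 1) ∧
      (∀ v ∈ p, v < 3 → ∃ s, v = e s) ∧
      ∀ s, min (p.count (e s)) 2 = min (w.count s) 2 := by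
  have hinj : ∀ s t, e s = e t → s = t := fun s t h => by rw [← hd s, h, hd]
  induction h with
  | nil k => exact ⟨[], fun v => [d v], by simp, by simp, fun _ _ => rfl, rfl, by simp, by simp,
      by simp⟩
  | cons k n l w _ ih =>
    obtain ⟨p, σ, h1, h2, h3, h4, h5, h6, h7⟩ := ih
    obtain ⟨i, j, hij, hi, hi2⟩ : ∃ i j : ℕ, n = i + 2 * j ∧ i ≤ 3 ∧ min i 2 = min n 2 := by
      by_cases hn : n ≤ 3
      · exact ⟨n, 0, by omega, hn, rfl⟩
      · exact ⟨2 + n % 2, (n - 2) / 2, by omega, by omega, by omega⟩
    have hel := he l
    refine ⟨List.replicate i (e l) ++ [3 + k, 3 + k] ++ p,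
      Function.update σ (3 + k) (List.replicate j l), ?_, ?_, ?_, ?_, ?_, ?_, ?_⟩
    · simp only [List.length_append, List.length_replicate, List.length_cons, List.length_nil]
      omega
    · intro v hv
      simp only [List.mem_append, List.mem_replicate, List.mem_cons, List.not_mem_nil,
        or_false] at hv
      rcases hv with (hv | hv) | hv
      · omega
      · omega
      · have := h2 v hv
        omega
    · intro v hv
      rw [Function.update_of_ne (by omega)]
      exact h3 v hv
    · have e1 : p.flatMap (Function.update σ (3 + k) (List.replicate j l)) = w := by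
        rw [← h4]
        refine List.flatMap_congr fun v hv => Function.update_of_ne ?_ _ _
        have := h2 v hv
        omega
      have e2 : Function.update σ (3 + k) (List.replicate j l) (e l) = [l] := by
        rw [Function.update_of_ne (by omega), h3 _ hel, hd]
      rw [List.flatMap_append, List.flatMap_append, e1, List.flatMap_replicate, e2, hij]
      simp [two_mul]
    · intro v hv
      have := h5 v hv
      rw [List.count_append, List.count_append, List.count_replicate]
      have hne : ¬ (e l == v) = true := by
        simp only [beq_iff_eq]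
        omega
      rw [if_neg hne]
      by_cases hv' : v = 3 + k
      · subst hv'
        simp only [List.count_cons_self, List.count_nil]
        omega
      · rw [List.count_cons_of_ne (Ne.symm hv'), List.count_cons_of_ne (Ne.symm hv')]
        simpa using this
    · intro v hv hv3
      simp only [List.mem_append, List.mem_replicate, List.mem_cons, List.not_mem_nil,
        or_false] at hv
      rcases hv with (hv | hv) | hv
      · exact ⟨l, hv.2⟩
      · omega
      · exact h6 v hv hv3
    · intro s
      have := h7 s
      have hs := he s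
      have hne : 3 + k ≠ e s := by omega
      rw [List.count_append, List.count_append, List.count_append, List.count_replicate,
        List.count_replicate, List.count_cons_of_ne hne, List.count_cons_of_ne hne]
      by_cases hl : l = s
      · subst hl
        simp only [beq_self_eq_true, if_true, List.count_nil]
        omega
      · have hl' : e l ≠ e s := fun h => hl (hinj _ _ h)
        simpa [hl, hl'] using this

theorem exists_cover {S : Type} [DecidableEq S] (e : S → ℕ) (d : ℕ → S) (hd : ∀ s, d (e s) = s)
    (he : ∀ s, e s < 3) (k : ℕ) :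
    ∃ D : List ℕ, NoOnce D ∧ ∀ w : List S, NoOnce w → Blocks k w → Gen D w := by
  have hfin : {p : List ℕ | NoOnce p ∧ p.length ≤ 5 * k ∧ ∀ v ∈ p, v < 3 + k}.Finite := by
    refine ((List.finite_length_le (Fin (3 + k)) (5 * k)).image (List.map Fin.val)).subset ?_
    rintro p ⟨-, h1, h2⟩
    refine ⟨p.pmap (fun v hv => ⟨v, hv⟩) h2, by simpa using h1, ?_⟩
    simp [List.map_pmap]
  obtain ⟨D, hD, h⟩ := exists_merge S hfin fun p hp => hp.1
  refine ⟨D, hD, fun w hw hb => ?_⟩
  obtain ⟨p, σ, h1, h2, -, h4, h5, h6, h7⟩ := exists_pattern e d hd he hb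
  refine h p ⟨fun v hv => ?_, h1, h2⟩ w ⟨σ, h4⟩
  by_cases hv3 : 3 ≤ v
  · exact h5 v hv3 hv
  · obtain ⟨s, rfl⟩ := h6 v (List.count_pos_iff.1 (by omega)) (by omega)
    have := h7 s
    have := hw s
    omega

section Gaps

variable {S : Type} [DecidableEq S] (a : S)

/-- distances between consecutive occurrences of `a` -/
def gaps : Option ℕ → List S → List ℕ
  | _, [] => []
  | none, x :: w => if x = a then gaps (some 0) w else gaps none w
  | some n, x :: w => if x = a then n :: gaps (some 0) w else gaps (some (n + 1)) w

/-- the state after reading a word -/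
def after : Option ℕ → List S → Option ℕ
  | s, [] => s
  | none, x :: w => if x = a then after (some 0) w else after none w
  | some n, x :: w => if x = a then after (some 0) w else after (some (n + 1)) w

theorem gaps_append (u v : List S) :
    ∀ s, gaps a s (u ++ v) = gaps a s u ++ gaps a (after a s u) v := by
  induction u with
  | nil => intro s; cases s <;> simp [gaps, after]
  | cons x u ih =>
    intro s
    cases s <;> by_cases h : x = a <;> simp [gaps, after, h, ih]

theorem gaps_state (u : List S) :
    ∀ s, ∃ C : List ℕ, C.length ≤ 1 ∧ gaps a s u = C ++ gaps a none u := by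
  induction u with
  | nil => intro s; exact ⟨[], by simp, by cases s <;> simp [gaps]⟩
  | cons x u ih =>
    intro s
    cases s with
    | none => exact ⟨[], by simp, rfl⟩
    | some n =>
      by_cases h : x = a
      · exact ⟨[n], by simp, by simp [gaps, h]⟩
      · obtain ⟨C, h1, h2⟩ := ih (some (n + 1))
        exact ⟨C, h1, by simp [gaps, h, h2]⟩

theorem gaps_flatMap (σ : ℕ → List S) (D : List ℕ) :
    ∀ s, ∃ C : List ℕ, C.length ≤ D.length ∧
      ∀ j, (gaps a s (D.flatMap σ)).count j =
        C.count j + (D.flatMap fun v => gaps a none (σ v)).count j := by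
  induction D with
  | nil => intro s; exact ⟨[], by simp, by cases s <;> simp [gaps]⟩
  | cons v D ih =>
    intro s
    obtain ⟨C1, h1, h2⟩ := gaps_state a (σ v) s
    obtain ⟨C2, h3, h4⟩ := ih (after a s (σ v))
    refine ⟨C1 ++ C2, by simp; omega, fun j => ?_⟩
    simp only [List.flatMap_cons, gaps_append, h2, List.count_append, h4]
    omega

/-- a word whose gaps are `n - 1, …, 0` -/
def body (b : S) : ℕ → List S
  | 0 => []
  | n + 1 => List.replicate n b ++ a :: body b n

theorem gaps_replicate {b : S} (hab : b ≠ a) (n : ℕ) (w : List S) :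
    ∀ s, gaps a (some s) (List.replicate n b ++ a :: w) = (s + n) :: gaps a (some 0) w := by
  induction n with
  | zero => intro s; simp [gaps]
  | succ n ih =>
    intro s
    simp only [List.replicate_succ, List.cons_append, gaps, hab, if_false, ih]
    congr 1
    omega

theorem gaps_body {b : S} (hab : b ≠ a) (n : ℕ) :
    gaps a (some 0) (body a b n) = (List.range n).reverse := by
  induction n with
  | zero => simp [body, gaps]
  | succ n ih => simp [body, gaps_replicate a hab, ih, List.range_succ]

theorem exists_missed {b c : S} (hba : b ≠ a) (hca : c ≠ a) (hall : ∀ x, x = a ∨ x = b ∨ x = c)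
    {D : List ℕ} (hD : NoOnce D) : ∃ w : List S, NoOnce w ∧ ¬ Gen D w := by
  refine ⟨[b, b, c, c, a] ++ body a b (D.length + 1), fun x => ?_, ?_⟩
  · rcases hall x with rfl | rfl | rfl
    · simp only [body, List.count_append, List.count_cons_self, List.count_cons, List.count_nil]
      omega
    · simp only [List.count_append, List.count_cons_self, List.count_cons, List.count_nil]
      omega
    · simp only [List.count_append, List.count_cons, List.count_nil, beq_self_eq_true, if_true]
      omega
  · rintro ⟨σ, hσ⟩
    obtain ⟨C, h1, h2⟩ := gaps_flatMap a σ D none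
    have h3 := hD.flatMap fun v => gaps a none (σ v)
    have h4 : gaps a none (D.flatMap σ) = (List.range (D.length + 1)).reverse := by
      rw [hσ, ← gaps_body a hba]
      simp [gaps, hba, hca]
    have h5 : List.range (D.length + 1) ⊆ C := by
      intro j hj
      have k1 := h2 j
      have k2 := h3 j
      rw [h4, List.count_reverse, List.count_eq_one_of_mem List.nodup_range hj] at k1
      exact List.count_pos_iff.1 (by omega)
    have := (List.subperm_of_subset List.nodup_range h5).length_le
    rw [List.length_range] at this
    omega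

end Gaps

end Pool.Agent.Lib.MP_c27bb7_lc
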