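import Mathlib
import Pool.Agent.Lib.MP_c27bb7_lc.Patterns

/-!
A pattern that absorbs a further factor between the terminal words `u` and `b`.
-/

set_option autoImplicit false

namespace Pool.Agent.Lib.MP_c27bb7_lc

open List

theorem exists_patternK {S : Type} [DecidableEq S] {K : ℕ} (e : S → ℕ) (d : ℕ → S) (hd : ∀ s, d (e s) = s)
    (he : ∀ s, e s < K) {k : ℕ} {w : List S} (h : Blocks k w) :
    ∃ (p : List ℕ) (σ : ℕ → List S), p.length ≤ 5 * k ∧ (∀ v ∈ p, v < K + k) ∧
      (∀ v, v < K → σ v = [d v]) ∧ p.flatMap σ = w ∧ (∀ v, K ≤ v → p.count v ≠ 1) ∧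
      (∀ v ∈ p, v < K → ∃ s, v = e s) ∧
      ∀ s, min (p.count (e s)) 2 = min (w.count s) 2 := by
  have hinj : ∀ s t, e s = e t → s = t := fun s t h => by rw [← hd s, h, hd]
  induction h with
  | nil k => exact ⟨[], fun v => [d v], by simp, by simp, fun _ _ => rfl, rfl, by simp, by simp,
      by simp⟩
  | cons k n l w _ ih =>
    obtain ⟨p, σ, h1, h2, h3, h4, h5, h6, h7⟩ := ih
    obtain ⟨i, j, hij, hi, hi2⟩ : ∃ i j : ℕ, n = i + 2 * j ∧ i ≤ 3 ∧ min i 2 = min n 2 := by
      by_cases hn : n ≤ 3
      · exact ⟨n, 0, by omega, hn, rfl⟩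
      · exact ⟨2 + n % 2, (n - 2) / 2, by omega, by omega, by omega⟩
    have hel := he l
    refine ⟨List.replicate i (e l) ++ [K + k, K + k] ++ p,
      Function.update σ (K + k) (List.replicate j l), ?_, ?_, ?_, ?_, ?_, ?_, ?_⟩
    · simp only [List.length_append, List.length_replicate, List.length_cons, List.length_nil]
      omega
    · intro v hv
      simp only [List.mem_append, List.mem_replicate, List.mem_cons, List.not_mem_nil,
        or_false] at hv
      rcases hv with (hv | hv) | hv
      · omega
      · omega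
      · have := h2 v hv
        omega
    · intro v hv
      rw [Function.update_of_ne (by omega)]
      exact h3 v hv
    · have e1 : p.flatMap (Function.update σ (K + k) (List.replicate j l)) = w := by
        rw [← h4]
        refine List.flatMap_congr fun v hv => Function.update_of_ne ?_ _ _
        have := h2 v hv
        omega
      have e2 : Function.update σ (K + k) (List.replicate j l) (e l) = [l] := by
        rw [Function.update_of_ne (by omega), h3 _ hel, hd]
      rw [List.flatMap_append, List.flatMap_append, e1, List.flatMap_replicate, e2, hij]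
      simp [two_mul]
    · intro v hv
      have := h5 v hv
      rw [List.count_append, List.count_append, List.count_replicate]
      have hne : ¬ (e l == v) = true := by
        simp only [beq_iff_eq]
        omega
      rw [if_neg hne]
      by_cases hv' : v = K + k
      · subst hv'
        simp only [List.count_cons_self, List.count_nil]
        omega
      · rw [List.count_cons_of_ne (Ne.symm hv'), List.count_cons_of_ne (Ne.symm hv')]
        simpa using this
    · intro v hv hv3
      simp only [List.mem_append, List.mem_replicate, List.mem_cons, List.not_mem_nil,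
        or_false] at hv
      rcases hv with (hv | hv) | hv
      · exact ⟨l, hv.2⟩
      · omega
      · exact h6 v hv hv3
    · intro s
      have := h7 s
      have hs := he s
      have hne : K + k ≠ e s := by omega
      rw [List.count_append, List.count_append, List.count_append, List.count_replicate,
        List.count_replicate, List.count_cons_of_ne hne, List.count_cons_of_ne hne]
      by_cases hl : l = s
      · subst hl
        simp only [beq_self_eq_true, if_true, List.count_nil]
        omega
      · have hl' : e l ≠ e s := fun h => hl (hinj _ _ h)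
        simpa [hl, hl'] using this

theorem exists_coverK {S : Type} [DecidableEq S] {K : ℕ} (e : S → ℕ) (d : ℕ → S) (hd : ∀ s, d (e s) = s)
    (he : ∀ s, e s < K) (k : ℕ) :
    ∃ D : List ℕ, NoOnce D ∧ ∀ w : List S, NoOnce w → Blocks k w → Gen D w := by
  have hfin : {p : List ℕ | NoOnce p ∧ p.length ≤ 5 * k ∧ ∀ v ∈ p, v < K + k}.Finite := by
    refine ((List.finite_length_le (Fin (K + k)) (5 * k)).image (List.map Fin.val)).subset ?_
    rintro p ⟨-, h1, h2⟩
    refine ⟨p.pmap (fun v hv => ⟨v, hv⟩) h2, by simpa using h1, ?_⟩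
    simp [List.map_pmap]
  obtain ⟨D, hD, h⟩ := exists_merge S hfin fun p hp => hp.1
  refine ⟨D, hD, fun w hw hb => ?_⟩
  obtain ⟨p, σ, h1, h2, -, h4, h5, h6, h7⟩ := exists_patternK e d hd he hb
  refine h p ⟨fun v hv => ?_, h1, h2⟩ w ⟨σ, h4⟩
  by_cases hv3 : K ≤ v
  · exact h5 v hv3 hv
  · obtain ⟨s, rfl⟩ := h6 v (List.count_pos_iff.1 (by omega)) (by omega)
    have := h7 s
    have := hw s
    omega

theorem Blocks.map {S T : Type} (f : S → T) {k : ℕ} {w : List S} (h : Blocks k w) :
    Blocks k (w.map f) := by
  induction h with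
  | nil k => exact Blocks.nil _
  | cons k n l w _ ih =>
    rw [List.map_append, List.map_replicate]
    exact Blocks.cons _ n _ _ ih

theorem Blocks.of_length {S : Type} (w : List S) : Blocks w.length w := by
  induction w with
  | nil => exact Blocks.nil _
  | cons x w ih => exact Blocks.cons _ 1 x w ih

theorem noOnce_of {V : Type} [DecidableEq V] {w : List V} (h : ∀ x ∈ w, 2 ≤ w.count x) :
    NoOnce w := fun x hx => by
  have := h x (List.count_pos_iff.1 (by omega))
  omega

theorem gen_merge {S : Type} {p q : List ℕ} {w : List S} :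
    Gen (merge p q) w ↔ ∃ w₁ w₂, w = w₁ ++ w₂ ∧ Gen p w₁ ∧ Gen q w₂ := by
  constructor
  · rintro ⟨σ, rfl⟩
    exact ⟨_, _, by rw [merge, List.flatMap_append, List.flatMap_map, List.flatMap_map],
      ⟨_, rfl⟩, ⟨_, rfl⟩⟩
  · rintro ⟨_, _, rfl, ⟨σ, rfl⟩, ⟨τ, rfl⟩⟩
    refine ⟨fun n => if n % 2 = 0 then σ (n / 2) else τ (n / 2), ?_⟩
    rw [merge, List.flatMap_append, List.flatMap_map, List.flatMap_map]
    have h1 : ∀ n : ℕ, (2 * n + 1) % 2 = 1 := fun n => by omega
    have h2 : ∀ n : ℕ, (2 * n + 1) / 2 = n := fun n => by omega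
    simp [h1, h2]

/-- one pattern generates the images of all words with few blocks over two extra letters -/
theorem exists_cover_ext (S : Type) [Fintype S] [DecidableEq S] (k : ℕ) :
    ∃ D : List ℕ, NoOnce D ∧ ∀ (w : List (S ⊕ Bool)) (ρ : Bool → List S), NoOnce w → Blocks k w →
      Gen D (w.flatMap (Sum.elim (fun s => [s]) ρ)) := by
  let e : S ⊕ Bool → ℕ := fun s => (Fintype.equivFin _ s).val
  have he : Function.Injective e := Fin.val_injective.comp (Fintype.equivFin _).injective
  obtain ⟨D, hD, h⟩ := exists_coverK e (Function.invFun e) (Function.leftInverse_invFun he)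
    (fun s => (Fintype.equivFin _ s).2) k
  refine ⟨D, hD, fun w ρ h1 h2 => ?_⟩
  obtain ⟨σ, rfl⟩ := h w h1 h2
  exact ⟨_, (List.flatMap_assoc ..).symm⟩

section

variable {S : Type} [DecidableEq S] {a b c : S}

theorem short (hall : ∀ x, x = a ∨ x = b ∨ x = c) {u : List S} (hu : u ≠ []) (hu2 : Blocks 2 u)
    (H : ∀ z, b ∉ z → Blocks 3 z ∨ ∃ y z', z = y ++ u ++ z' ∧ Blocks 2 y) (n : ℕ) :
    ∀ z, z.length ≤ n → b ∉ z →
      Blocks 7 z ∨ ∃ y z', z = y ++ u ++ z' ∧ NoOnce z' ∧ Blocks 7 z' := by
  induction n with
  | zero =>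
    intro z hz _
    obtain rfl : z = [] := List.length_eq_zero_iff.1 (by omega)
    exact Or.inl (Blocks.nil _)
  | succ n ih =>
    intro z hz hb
    rcases H z hb with h | ⟨y, z', rfl, hy⟩
    · exact Or.inl (h.mono (by omega))
    · have hb' : b ∉ z' := fun k => hb (by simp [k])
      by_cases hn : NoOnce z'
      · have := List.length_pos_iff.2 hu
        rcases ih z' (by simp only [List.length_append] at hz; omega) hb' with h | ⟨y', z'', rfl, h⟩
        · exact Or.inr ⟨y, z', rfl, hn, h⟩
        · exact Or.inr ⟨y ++ u ++ y', z'', by simp, h⟩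
      · exact Or.inl ((hy.append hu2).append (two_letter hall hb' hn))

omit [DecidableEq S] in
theorem split_one (hall : ∀ x, x = a ∨ x = b ∨ x = c) (hab : a ≠ b) (z : List S) (hb : b ∉ z) :
    Blocks 3 z ∨ ∃ y z', z = y ++ [a] ++ z' ∧ Blocks 2 y := by
  by_cases ha : a ∈ z
  · obtain ⟨y, z', rfl, hy⟩ := split_first ha
    exact Or.inr ⟨y, z', by simp,
      (one_letter hall hab hy fun k => hb (by simp [k])).mono (by omega)⟩
  · exact Or.inl ((one_letter hall hab ha hb).mono (by omega))

omit [DecidableEq S] in
theorem split_two (hall : ∀ x, x = a ∨ x = b ∨ x = c) (hab : a ≠ b) (hbc : b ≠ c) (z : List S)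
    (hb : b ∉ z) : Blocks 3 z ∨ ∃ y z', z = y ++ [c, a] ++ z' ∧ Blocks 2 y := by
  by_cases hc : c ∈ z
  · obtain ⟨y, z', rfl, hy⟩ := split_first hc
    have h1 : Blocks 1 y := one_letter hall hbc (fun k => hb (by simp [k])) hy
    have hb' : b ∉ z' := fun k => hb (by simp [k])
    by_cases ha : a ∈ z'
    · obtain ⟨y', z'', rfl, hy'⟩ := split_first ha
      have h2 : ∀ x ∈ y', x = c := fun x hx => by
        rcases hall x with rfl | rfl | rfl
        · exact absurd hx hy'
        · exact absurd (by simp [hx]) hb'
        · rfl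
      refine Or.inr ⟨y ++ y', z'', ?_, h1.append (Blocks.of_all c h2)⟩
      rw [List.eq_replicate_of_mem h2]
      simp only [List.append_assoc, List.cons_append, List.nil_append]
      rw [← List.cons_append, ← List.replicate_succ, List.replicate_succ']
      simp
    · exact Or.inl (Blocks.around c h1 (one_letter hall hab ha hb'))
  · exact Or.inl ((one_letter hall hbc hb hc).mono (by omega))

variable {u : List S} {D : List ℕ}

/-- the word has a factor `u w b` with `w` generated by `E` -/
def Good (u : List S) (b : S) (E : List ℕ) (W : List S) : Prop :=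
  ∃ p w q, W = p ++ u ++ w ++ b :: q ∧ Gen E w

theorem good_plain
    (hD : ∀ (w : List (S ⊕ Bool)) (ρ : Bool → List S), NoOnce w → Blocks 14 w →
      Gen D (w.flatMap (Sum.elim (fun s => [s]) ρ))) {w : List S} (h1 : NoOnce w)
    (h2 : Blocks 7 w) (p q : List S) : Good u b (merge [0, 0] D) (p ++ u ++ w ++ b :: q) := by
  refine ⟨p, w, q, rfl, Gen.merge_right _ ?_⟩
  have := hD (w.map Sum.inl) (fun _ => []) (h1.map _) ((h2.map _).mono (by omega))
  simpa [List.flatMap_map] using this

theorem absorb_unary {d e : S} (hall : ∀ x, x = d ∨ x = e ∨ x = b) (hde : d ≠ e)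
    (hsh : ∀ z, b ∉ z → Blocks 7 z ∨ ∃ y z', z = y ++ u ++ z' ∧ NoOnce z' ∧ Blocks 7 z')
    (hD : ∀ (w : List (S ⊕ Bool)) (ρ : Bool → List S), NoOnce w → Blocks 14 w →
      Gen D (w.flatMap (Sum.elim (fun s => [s]) ρ))) (n : ℕ) {w : List S}
    (hw : Gen (merge [0, 0] D) w) :
    Good u b (merge [0, 0] D) (u ++ (replicate (2 * (n + 1)) d ++ w) ++ [b]) := by
  obtain ⟨_, w₂, rfl, ⟨σ, rfl⟩, h₂⟩ := gen_merge.1 hw
  simp only [List.flatMap_cons, List.flatMap_nil, List.append_nil]
  generalize σ 0 = P
  by_cases he : e ∈ P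
  · obtain ⟨p₁, p₂, rfl⟩ := List.append_of_mem he
    obtain ⟨z, q, hz, hb⟩ := split_first (w := w₂ ++ [b]) (l := b) (by simp)
    rcases hsh z hb with h | ⟨y, z', rfl, h1, h2⟩
    · refine ⟨[], replicate (2 * (n + 1)) d ++ (p₁ ++ e :: p₂ ++ (p₁ ++ e :: p₂)) ++ z, q,
        by simp [← hz], Gen.merge_right _ ?_⟩
      have k := hD (replicate (2 * (n + 1)) (Sum.inl d) ++ ([Sum.inr false, Sum.inl e, Sum.inr true,
        Sum.inr false, Sum.inl e, Sum.inr true] ++ z.map Sum.inl))
        (fun t => if t then p₂ else p₁) (noOnce_of fun x hx => ?_)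
        (Blocks.cons 13 _ _ _ (Blocks.append (k := 6) ((Blocks.of_length _).mono (by simp))
          (h.map _)))
      · simpa [List.flatMap_map, List.flatMap_replicate] using k
      · have hx' : x = Sum.inl d ∨ x = Sum.inl e ∨ x = Sum.inr false ∨ x = Sum.inr true := by
          rcases x with x | _ | _
          · rcases hall x with rfl | rfl | rfl
            · simp
            · simp
            · simp only [List.mem_append, List.mem_replicate, List.mem_cons, List.mem_map,
                Sum.inl.injEq, exists_eq_right, reduceCtorEq, false_or, List.not_mem_nil,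
                or_false, or_self] at hx ⊢
              tauto
          · simp
          · simp
        rcases hx' with rfl | rfl | rfl | rfl <;>
          simp [List.count_append, List.count_replicate, List.count_cons] <;> omega
    · have := good_plain (u := u) (b := b) hD h1 h2
        (u ++ replicate (2 * (n + 1)) d ++ (p₁ ++ e :: p₂ ++ (p₁ ++ e :: p₂)) ++ y) q
      convert this using 1
      simp only [List.append_assoc] at hz ⊢
      rw [hz]
  · by_cases hb : b ∈ P
    · obtain ⟨t, r, rfl, ht⟩ := split_first hb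
      have h1 : ∀ x ∈ replicate (2 * (n + 1)) d ++ t, x = d := fun x hx => by
        rcases List.mem_append.1 hx with hx | hx
        · exact List.eq_of_mem_replicate hx
        · rcases hall x with rfl | rfl | rfl
          · rfl
          · exact absurd (by simp [hx]) he
          · exact absurd hx ht
      have := good_plain (u := u) (b := b) hD (noOnce_of fun x hx => by
        rw [h1 x hx, List.count_append, List.count_replicate_self]; omega)
        ((Blocks.of_all d h1).mono (by omega)) [] (r ++ (t ++ b :: r) ++ w₂ ++ [b])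
      simpa using this
    · have h1 : ∀ x ∈ P, x = d := fun x hx => by
        rcases hall x with rfl | rfl | rfl
        · rfl
        · exact absurd hx he
        · exact absurd hx hb
      refine ⟨[], replicate (2 * (n + 1)) d ++ (P ++ P ++ w₂), [], by simp,
        gen_merge.2 ⟨replicate (2 * (n + 1)) d ++ (P ++ P), w₂, by simp, ⟨fun _ => replicate (n + 1 + P.length) d, ?_⟩, h₂⟩⟩
      rw [List.eq_replicate_of_mem h1]
      simp only [List.flatMap_cons, List.flatMap_nil, List.append_nil, List.length_replicate,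
        List.replicate_append_replicate]
      congr 1
      omega

theorem absorb (hall : ∀ x, x = a ∨ x = b ∨ x = c) (hac : a ≠ c)
    (hsh : ∀ z, b ∉ z → Blocks 7 z ∨ ∃ y z', z = y ++ u ++ z' ∧ NoOnce z' ∧ Blocks 7 z')
    (hD : ∀ (w : List (S ⊕ Bool)) (ρ : Bool → List S), NoOnce w → Blocks 14 w →
      Gen D (w.flatMap (Sum.elim (fun s => [s]) ρ))) {s R w : List S} (hR : ∀ x ∈ R, x ∈ s)
    (hev : Even R.length) (hw : Gen (merge [0, 0] D) w) :
    Good u b (merge [0, 0] D) (u ++ (s ++ s ++ s ++ s ++ R ++ w) ++ [b]) := by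
  rcases eq_or_ne s [] with rfl | hs
  · obtain rfl : R = [] := List.eq_nil_iff_forall_not_mem.2 fun x hx => by simpa using hR x hx
    exact ⟨[], w, [], by simp, hw⟩
  by_cases hb : b ∈ s
  · obtain ⟨t, r, rfl⟩ := List.append_of_mem hb
    refine ⟨[], t ++ b :: r ++ (t ++ b :: r) ++ t, r ++ (t ++ b :: r) ++ R ++ w ++ [b], by simp,
      Gen.merge_right _ ?_⟩
    have k := hD [Sum.inr false, Sum.inr true, Sum.inr false, Sum.inr true, Sum.inr false]
      (fun x => if x then b :: r else t) (noOnce_of (by simp [List.count_cons]))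
      ((Blocks.of_length _).mono (by simp))
    simpa using k
  have un : ∀ d e : S, (∀ x, x = d ∨ x = e ∨ x = b) → d ≠ e → e ∉ s →
      Good u b (merge [0, 0] D) (u ++ (s ++ s ++ s ++ s ++ R ++ w) ++ [b]) := by
    intro d e h1 h2 h3
    have h4 : ∀ x ∈ s, x = d := fun x hx => by
      rcases h1 x with rfl | rfl | rfl
      · rfl
      · exact absurd hx h3
      · exact absurd hx hb
    have h5 : ∀ x ∈ s ++ s ++ s ++ s ++ R, x = d := fun x hx => by
      simp only [List.mem_append, or_self] at hx
      exact h4 x (hx.elim id (hR x))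
    obtain ⟨k, hk⟩ := hev
    have h6 := List.length_pos_iff.2 hs
    have h7 : (s ++ s ++ s ++ s ++ R).length = 2 * (2 * s.length + k - 1 + 1) := by
      simp only [List.length_append]; omega
    rw [List.eq_replicate_of_mem h5, h7]
    exact absorb_unary h1 h2 hsh hD _ hw
  by_cases ha : a ∈ s
  swap
  · exact un c a (fun x => by have := hall x; tauto) hac.symm ha
  by_cases hc : c ∈ s
  swap
  · exact un a c (fun x => by have := hall x; tauto) hac hc
  obtain ⟨z, q, hz, hbz⟩ := split_first (w := w ++ [b]) (l := b) (by simp)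
  have h1 : b ∉ s ++ s ++ s ++ s ++ R ++ z := by
    simp only [List.mem_append, or_self, not_or]
    exact ⟨⟨hb, fun k => hb (hR b k)⟩, hbz⟩
  have h2 : NoOnce (s ++ s ++ s ++ s ++ R ++ z) := noOnce_of fun x hx => by
    have h3 : 0 < s.count x := List.count_pos_iff.2 (by
      rcases hall x with rfl | rfl | rfl
      · exact ha
      · exact absurd hx h1
      · exact hc)
    simp only [List.count_append]
    omega
  have e : u ++ (s ++ s ++ s ++ s ++ R ++ w) ++ [b] =
      [] ++ u ++ (s ++ s ++ s ++ s ++ R ++ z) ++ b :: q := by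
    simp only [List.append_assoc, List.nil_append, hz]
  rw [e]
  rcases hsh _ h1 with h | ⟨y, z', k, h3, h4⟩
  · exact good_plain hD h2 h [] q
  · have := good_plain (u := u) (b := b) hD h3 h4 (u ++ y) q
    rw [k]
    simpa using this

end

/-- the incompressible part of the extra factor -/
def gg : ℕ → List ℕ
  | 0 => []
  | n + 1 => replicate (2 * (n + 2)) 0 ++ 1 :: 1 :: gg n

theorem gg_mem (n : ℕ) : ∀ v ∈ gg n, v = 0 ∨ v = 1 := by
  induction n with
  | zero => simp [gg]
  | succ n ih =>
    intro v hv
    simp only [gg, List.mem_append, List.mem_replicate, List.mem_cons] at hv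
    rcases hv with h | h | h | h
    exacts [Or.inl h.2, Or.inr h, Or.inr h, ih v h]

theorem gg_even {S : Type} (τ : ℕ → List S) (n : ℕ) : Even ((gg n).flatMap τ).length := by
  induction n with
  | zero => simp [gg]
  | succ n ih =>
    obtain ⟨k, hk⟩ := ih
    refine ⟨(n + 2) * (τ 0).length + (τ 1).length + k, ?_⟩
    simp only [gg, List.flatMap_append, List.flatMap_cons, List.length_append, hk,
      List.flatMap_replicate, List.length_flatten, List.map_replicate, List.sum_replicate,
      smul_eq_mul]
    ring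

theorem gg_gaps {S : Type} [DecidableEq S] {a b : S} (hba : b ≠ a) (j n : ℕ) :
    (gaps a (some 0) ((gg n).map fun v => if v = 0 then b else a)).count (2 * (j + 2)) =
      if j < n then 1 else 0 := by
  induction n with
  | zero => simp [gg, gaps]
  | succ n ih =>
    simp only [gg, List.map_append, List.map_replicate, List.map_cons, if_true, one_ne_zero,
      if_false, gaps_replicate a hba, gaps, List.count_cons, beq_iff_eq]
    rw [ih]
    rcases lt_trichotomy j n with h | rfl | h
    · rw [if_pos h, if_neg (by omega), if_neg (by omega), if_pos (by omega)]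
    · simp
    · rw [if_neg (by omega), if_neg (by omega), if_neg (by omega), if_neg (by omega)]

theorem gg_missed {S : Type} [DecidableEq S] {a b : S} (hba : b ≠ a) {D : List ℕ}
    (hD : NoOnce D) : ¬ Gen D (([0, 1, 0, 1, 0, 1, 0, 1] ++ gg (D.length + 1)).map
      fun v => if v = 0 then b else a) := by
  rintro ⟨σ, hσ⟩
  obtain ⟨C, h1, h2⟩ := gaps_flatMap a σ D none
  have h3 := hD.flatMap fun v => gaps a none (σ v)
  have h5 : (List.range (D.length + 1)).map (fun j => 2 * (j + 2)) ⊆ C := by
    intro x hx
    obtain ⟨j, hj, rfl⟩ := List.mem_map.1 hx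
    have k1 := h2 (2 * (j + 2))
    have k2 := h3 (2 * (j + 2))
    have k3 := gg_gaps hba j (D.length + 1)
    rw [if_pos (List.mem_range.1 hj)] at k3
    rw [hσ] at k1
    simp only [List.cons_append, List.nil_append, List.map_cons, if_true, one_ne_zero, if_false,
      gaps, hba, List.count_cons, k3, beq_iff_eq] at k1
    rw [if_neg (by omega)] at k1
    exact List.count_pos_iff.1 (by omega)
  have := (List.subperm_of_subset (List.nodup_range.map fun x y h => by
    simpa using h) h5).length_le
  rw [List.length_map, List.length_range] at this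
  omega

/-- Two variable words with different languages that agree between `u` and `b`. -/
theorem exists_pair {S : Type} [Fintype S] [DecidableEq S] {a b c : S}
    (hall : ∀ x, x = a ∨ x = b ∨ x = c) (hab : a ≠ b) (hac : a ≠ c) (hbc : b ≠ c) {u : List S}
    (hu : u = [a] ∨ u = [c, a]) :
    ∃ E E' : List ℕ, E ≠ [] ∧ E' ≠ [] ∧ (∀ w : List S, Gen E w → Gen E' w) ∧
      (∃ w : List S, Gen E' w ∧ ¬ Gen E w) ∧
      ∀ w : List S, Gen E' w → ∃ p w' q, u ++ w ++ [b] = p ++ u ++ w' ++ [b] ++ q ∧ Gen E w' := by
  obtain ⟨D, hD, h⟩ := exists_cover_ext S 14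
  have hsh : ∀ z, b ∉ z → Blocks 7 z ∨ ∃ y z', z = y ++ u ++ z' ∧ NoOnce z' ∧ Blocks 7 z' := by
    intro z
    rcases hu with rfl | rfl
    · exact short hall (by simp) ((Blocks.single a).mono (by omega)) (split_one hall hab) _ z le_rfl
    · exact short hall (by simp) (Blocks.of_length [c, a]) (split_two hall hab hbc) _ z le_rfl
  have hE : NoOnce (merge [0, 0] D) := NoOnce.merge (noOnce_of (by simp)) hD
  refine ⟨merge [0, 0] D,
    merge ([0, 1, 0, 1, 0, 1, 0, 1] ++ gg ((merge [0, 0] D).length + 1)) (merge [0, 0] D),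
    by simp [merge], by simp [merge], fun w hw => hw.merge_right _,
    ⟨_, Gen.merge_left _ ⟨fun v => [if v = 0 then b else a], List.map_eq_flatMap.symm⟩,
      gg_missed hab.symm hE⟩, fun w hw => ?_⟩
  obtain ⟨_, w, rfl, ⟨τ, rfl⟩, hw'⟩ := gen_merge.1 hw
  obtain ⟨p, w', q, e, k⟩ := absorb (u := u) (s := τ 0 ++ τ 1) hall hac hsh h (fun x hx => by
    obtain ⟨v, hv, hx⟩ := List.mem_flatMap.1 hx
    rcases gg_mem _ v hv with rfl | rfl <;> simp [hx]) (gg_even τ ((merge [0, 0] D).length + 1)) hw'
  exact ⟨p, w', q, by simpa using e, k⟩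

end Pool.Agent.Lib.MP_c27bb7_lc
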