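import Mathlib
import Pool.Agent.Lib.MP_c27bb7_lc.Patterns

/-!
Counting short factors pins the terminal blocks; a generic substitution then recovers a variable
block.
-/

set_option autoImplicit false

namespace Pool.Agent.Lib.MP_c27bb7_lc

open List

variable {S : Type} [DecidableEq S]

/-- the number of occurrences of `f` as a factor -/
def cnt (f : List S) : List S → ℕ
  | [] => 0
  | x :: w => (if f <+: x :: w then 1 else 0) + cnt f w

theorem cnt_append_ge (f p q : List S) : cnt f p + cnt f q ≤ cnt f (p ++ q) := by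
  induction p with
  | nil => simp [cnt]
  | cons x p ih =>
    simp only [List.cons_append, cnt]
    split_ifs with h1 h2
    · omega
    · exact absurd (h1.trans (List.prefix_append (x :: p) q)) h2
    · omega
    · omega

theorem cnt_skip (f p w q : List S) : cnt f p + cnt f q ≤ cnt f (p ++ w ++ q) := by
  have h1 := cnt_append_ge f (p ++ w) q
  have h2 := cnt_append_ge f p w
  omega

theorem cnt_front {f d y : List S} (hd : d ≠ []) (h : f <+: d ++ y) :
    cnt f y + 1 ≤ cnt f (d ++ y) := by
  obtain ⟨x, d, rfl⟩ := List.exists_cons_of_ne_nil hd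
  have := cnt_append_ge f d y
  simp only [List.cons_append] at h
  simp only [List.cons_append, cnt, if_pos h]
  omega

theorem cnt_back {f d : List S} (hf : f ≠ []) (hd : d ≠ []) (y : List S) (h : f <:+ y ++ d) :
    cnt f y + 1 ≤ cnt f (y ++ d) := by
  induction y with
  | nil =>
    obtain ⟨t, rfl⟩ := h
    have h1 := cnt_append_ge f t f
    have h2 := cnt_front (f := f) (y := []) hf (by simp)
    simp only [List.append_nil, List.nil_append, cnt] at h2 ⊢
    omega
  | cons x y ih =>
    have hl := List.length_pos_iff.2 hd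
    simp only [List.cons_append, cnt]
    rcases List.suffix_cons_iff.1 h with h | h
    · have h1 := cnt_append_ge f y d
      rw [if_neg fun k => by
        have := k.length_le
        rw [h] at this
        simp only [List.length_cons, List.length_append, List.append_eq] at this
        omega, if_pos (h ▸ List.prefix_refl _)]
      omega
    · have h1 := ih h
      split_ifs with h2 h3
      · omega
      · exact absurd (h2.trans (List.prefix_append (x :: y) d)) h3
      · omega
      · omega

theorem align {f r r' P P' Q Q' : List S} (hf : f ≠ [])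
    (h : P ++ (r ++ f ++ r') ++ Q = P' ++ (r ++ f ++ r') ++ Q')
    (h1 : cnt f (P ++ (r ++ f)) ≤ cnt f (P' ++ (r ++ f)))
    (h2 : cnt f (f ++ r' ++ Q) ≤ cnt f (f ++ r' ++ Q')) : P = P' := by
  have e1 : (P ++ (r ++ f)) ++ (r' ++ Q) = (P' ++ (r ++ f)) ++ (r' ++ Q') := by simpa using h
  have e2 : (P ++ r) ++ (f ++ r' ++ Q) = (P' ++ r) ++ (f ++ r' ++ Q') := by simpa using h
  rcases lt_trichotomy P.length P'.length with hl | hl | hl
  · obtain ⟨d, hd⟩ := List.prefix_of_prefix_length_le (List.prefix_append (P ++ r) _)
      (e2 ▸ List.prefix_append (P' ++ r) _) (by simp only [List.length_append]; omega)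
    rw [← hd, List.append_assoc (P ++ r), List.append_cancel_left_eq] at e2
    have hd0 : d ≠ [] := fun k => by
      have := congrArg List.length hd
      simp only [k, List.length_append, List.length_nil] at this
      omega
    have := cnt_front (f := f) hd0 (e2 ▸ (by simp : f <+: f ++ r' ++ Q))
    rw [← e2] at this
    omega
  · rw [List.append_assoc, List.append_assoc P'] at h
    exact (List.append_inj h hl).1
  · obtain ⟨d, hd⟩ := List.prefix_of_prefix_length_le (List.prefix_append (P' ++ (r ++ f)) _)
      (e1 ▸ List.prefix_append (P ++ (r ++ f)) _) (by simp only [List.length_append]; omega)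
    have hd0 : d ≠ [] := fun k => by
      have := congrArg List.length hd
      simp only [k, List.length_append, List.length_nil] at this
      omega
    have := cnt_back hf hd0 (P' ++ (r ++ f)) (hd ▸ ⟨P ++ r, by simp⟩)
    rw [hd] at this
    omega

/-- no occurrence of `f` meets or crosses `w` -/
def Tr (f w : List S) : Prop := ∀ p q, cnt f (p ++ w ++ q) = cnt f p + cnt f q

theorem Tr.append {f w w' : List S} (h : Tr f w) (h' : Tr f w') : Tr f (w ++ w') := fun p q => by
  have h1 := h p (w' ++ q)
  have h2 := h' [] q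
  simp only [List.nil_append, List.append_assoc, cnt] at h1 h2 ⊢
  omega

theorem Tr.flatMap {V : Type} {f : List S} {σ : V → List S} (h : ∀ v, Tr f (σ v)) {A : List V}
    (hA : A ≠ []) : Tr f (A.flatMap σ) := by
  induction A with
  | nil => exact absurd rfl hA
  | cons v A ih =>
    rcases eq_or_ne A [] with rfl | k
    · simpa using h v
    · exact (h v).append (ih k)

/-- the markers that the words over `g`, `h` below leave untouched -/
def Mk (g h : S) (f : List S) : Prop :=
  (∃ a, a ≠ g ∧ a ≠ h ∧ f = [a]) ∨ f = [h, h] ∨ f = [h, g, h]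

/-- one code word -/
def piece (g h : S) (n : ℕ) : List S := replicate (n + 2) g ++ [h, g, g]

theorem tr_piece {g h : S} (hgh : g ≠ h) {f : List S} (hf : Mk g h f) (n : ℕ) :
    Tr f (piece g h n) := by
  have h1 : ∀ x, ¬ f <+: g :: x := fun x => by
    rcases hf with ⟨a, h1, -, rfl⟩ | rfl | rfl <;> simp [List.cons_prefix_cons, *, hgh.symm]
  have h2 : ∀ x, ¬ f <+: h :: g :: g :: x := fun x => by
    rcases hf with ⟨a, -, h2, rfl⟩ | rfl | rfl <;> simp [List.cons_prefix_cons, *, hgh.symm]
  have h3 : ∀ k q, cnt f (replicate k g ++ h :: g :: g :: q) = cnt f q := fun k q => by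
    induction k with
    | zero => simp [cnt, h1, h2]
    | succ k ih => simp [List.replicate_succ, cnt, h1, ih]
  have h4 : ∀ y p x, f <+: y :: (p ++ g :: g :: x) ↔ f <+: y :: p := fun y p x => by
    rcases hf with ⟨a, -, -, rfl⟩ | rfl | rfl <;> rcases p with _ | ⟨y', _ | ⟨y'', p⟩⟩ <;>
      simp [List.cons_prefix_cons, hgh.symm]
  intro p q
  induction p with
  | nil => simpa [piece, cnt] using h3 (n + 2) q
  | cons y p ih =>
    have e : p ++ piece g h n ++ q = p ++ g :: g :: (replicate n g ++ [h, g, g] ++ q) := by
      simp [piece, List.replicate_succ]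
    simp only [List.cons_append, cnt, ih]
    rw [e]
    simp only [h4]
    omega

/-- the word `W 0, u 1, W 1, …, u m, W m` -/
def asm {T : Type} (u W : ℕ → List T) : ℕ → List T
  | 0 => W 0
  | m + 1 => asm u W m ++ u (m + 1) ++ W (m + 1)

/-- the word `u (i + 1), W (i + 1), …, u (i + k), W (i + k)` -/
def tl {T : Type} (u W : ℕ → List T) : ℕ → ℕ → List T
  | 0, _ => []
  | k + 1, i => u (i + 1) ++ W (i + 1) ++ tl u W k (i + 1)

theorem asm_add {T : Type} (u W : ℕ → List T) (k : ℕ) :
    ∀ i, asm u W (i + k) = asm u W i ++ tl u W k i := by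
  induction k with
  | zero => intro i; simp [tl]
  | succ k ih => intro i; rw [show i + (k + 1) = i + 1 + k by omega, ih]; simp [asm, tl]

theorem cnt_asm {f : List S} {u W : ℕ → List S} (W' : ℕ → List S) (i : ℕ)
    (h : ∀ j, j ≤ i → Tr f (W j) ∨ (W j = [] ∧ j = 0)) :
    ∀ z, cnt f (asm u W i ++ z) ≤ cnt f (asm u W' i ++ z) := by
  induction i with
  | zero =>
    intro z
    have h1 := cnt_append_ge f (W' 0) z
    rcases h 0 le_rfl with k | ⟨k, -⟩
    · have := k [] z
      simp only [List.nil_append, cnt, asm] at this ⊢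
      omega
    · simp only [asm, k, List.nil_append]
      omega
  | succ i ih =>
    intro z
    have h1 := ih (fun j hj => h j (by omega)) (u (i + 1) ++ W (i + 1) ++ z)
    have h2 := (h (i + 1) le_rfl).resolve_right (by simp) (asm u W' i ++ u (i + 1)) z
    have h3 := cnt_skip f (asm u W' i ++ u (i + 1)) (W' (i + 1)) z
    simp only [asm, List.append_assoc] at h1 h2 h3 ⊢
    omega

theorem cnt_tl {f : List S} {u W : ℕ → List S} (W' : ℕ → List S) (k : ℕ) :
    ∀ i z, (∀ j, i ≤ j → j ≤ i + k → Tr f (W j) ∨ (W j = [] ∧ j = i + k)) →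
      cnt f (z ++ W i ++ tl u W k i) ≤ cnt f (z ++ W' i ++ tl u W' k i) := by
  induction k with
  | zero =>
    intro i z h
    have h1 := cnt_append_ge f z (W' i)
    rcases h i le_rfl le_rfl with k | ⟨k, -⟩
    · have := k z []
      simp only [List.append_nil, cnt, tl] at this ⊢
      omega
    · simp only [tl, k, List.append_nil]
      omega
  | succ k ih =>
    intro i z h
    have h1 := ih (i + 1) (z ++ W i ++ u (i + 1)) fun j a b =>
      (h j (by omega) (by omega)).imp_right fun c => ⟨c.1, by omega⟩
    have h2 := (h i le_rfl (by omega)).resolve_right (by simp) z (tl u W' (k + 1) i)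
    have h3 := cnt_skip f z (W' i) (tl u W' (k + 1) i)
    simp only [tl, List.append_assoc] at h1 h2 h3 ⊢
    omega

theorem align_at {f : List S} {u W W' : ℕ → List S} {j m : ℕ} (hj : j < m) (hf : f ≠ [])
    (hu : f <:+: u (j + 1)) (hT : ∀ i, i ≤ m → Tr f (W i) ∨ (W i = [] ∧ (i = 0 ∨ i = m)))
    (h : asm u W m = asm u W' m) : asm u W j = asm u W' j := by
  obtain ⟨k, rfl⟩ : ∃ k, m = j + (k + 1) := ⟨m - j - 1, by omega⟩
  obtain ⟨r, r', hr⟩ := hu
  rw [asm_add, asm_add] at h
  refine align (r := r) (r' := r') (Q := W (j + 1) ++ tl u W k (j + 1))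
    (Q' := W' (j + 1) ++ tl u W' k (j + 1)) hf (by simpa [tl, ← hr] using h)
    (cnt_asm W' j (fun i hi => (hT i (by omega)).imp_right fun c => ⟨c.1, by omega⟩) _) ?_
  simpa using cnt_tl (u := u) W' k (j + 1) (f ++ r') fun i a b =>
    (hT i (by omega)).imp_right fun c => ⟨c.1, by omega⟩

/-- the generic substitution -/
def generic (g h : S) (N v : ℕ) : List S :=
  (0 :: (List.range N).map fun k => v * N + k + 1).flatMap (piece g h)

theorem gaps_none {g h : S} (hgh : g ≠ h) (n : ℕ) (w : List S) :
    gaps h none (replicate n g ++ h :: w) = gaps h (some 0) w := by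
  induction n with
  | zero => simp [gaps]
  | succ n ih => simp [List.replicate_succ, gaps, hgh, ih]

theorem gaps_pieces {g h : S} (hgh : g ≠ h) (l : List ℕ) (w : List S) :
    gaps h (some 2) (l.flatMap (piece g h) ++ w) = l.map (· + 4) ++ gaps h (some 2) w := by
  induction l with
  | nil => rfl
  | cons n l ih =>
    simp only [List.flatMap_cons, piece, List.append_assoc, List.cons_append, List.nil_append,
      gaps_replicate h hgh, gaps, hgh, if_false, List.map_cons] at ih ⊢
    rw [ih]
    congr 1
    omega

theorem gaps_cut (h : S) (ψ : ℕ → List S) (B : List ℕ) :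
    ∀ s, ∃ C : List ℕ, C.length ≤ B.length ∧ ∀ κ : ℕ → Option ℕ, (∀ x ∈ C, κ x = none) →
      (gaps h s (B.flatMap ψ)).filterMap κ =
        B.flatMap fun y => (gaps h none (ψ y)).filterMap κ := by
  induction B with
  | nil => intro s; exact ⟨[], by simp, by cases s <;> simp [gaps]⟩
  | cons v B ih =>
    intro s
    obtain ⟨C1, h1, h2⟩ := gaps_state h (ψ v) s
    obtain ⟨C2, h3, h4⟩ := ih (after h s (ψ v))
    refine ⟨C1 ++ C2, by simp; omega, fun κ hκ => ?_⟩
    have h5 : C1.filterMap κ = [] :=
      List.filterMap_eq_nil_iff.2 fun x hx => hκ x (List.mem_append_left _ hx)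
    simp only [List.flatMap_cons, gaps_append, h2, List.filterMap_append, h5, List.nil_append,
      h4 κ fun x hx => hκ x (List.mem_append_right _ hx)]

theorem filterMap_range (v k₀ N : ℕ) :
    (List.range N).filterMap (fun k => if k = k₀ then some v else none) =
      if k₀ < N then [v] else [] := by
  induction N with
  | zero => simp
  | succ N ih =>
    rw [List.range_succ, List.filterMap_append, ih]
    rcases lt_trichotomy k₀ N with h | rfl | h
    · simp [h, h.ne', h.le]
    · simp
    · simp [h.ne, not_lt.2 h.le, not_le.2 h]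

theorem of_generic {g h : S} (hgh : g ≠ h) {A B : List ℕ} {ψ : ℕ → List S}
    (e : A.flatMap (generic g h (B.length + 1)) = B.flatMap ψ) :
    ∃ φ : ℕ → List ℕ, B.flatMap φ = A := by
  obtain ⟨C, h1, h2⟩ := gaps_cut h ψ B none
  set N := B.length + 1 with hN
  have h3 : ∀ v, ∃ k, k < N ∧ v * N + k + 5 ∉ C := fun v => by
    by_contra hc
    push Not at hc
    have h4 : (List.range N).map (fun k => v * N + k + 5) ⊆ C := by
      intro x hx
      obtain ⟨k, hk, rfl⟩ := List.mem_map.1 hx
      exact hc k (List.mem_range.1 hk)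
    have := (List.subperm_of_subset (List.nodup_range.map fun x y h => by simpa using h)
      h4).length_le
    rw [List.length_map, List.length_range] at this
    omega
  choose kk k1 k2 using h3
  let κ : ℕ → Option ℕ := fun x =>
    if 5 ≤ x ∧ (x - 5) % N = kk ((x - 5) / N) then some ((x - 5) / N) else none
  have hκ : ∀ x ∈ C, κ x = none := fun x hx => if_neg fun c => k2 ((x - 5) / N) (by
    have := Nat.div_add_mod' (x - 5) N
    rwa [← c.2, this, Nat.sub_add_cancel c.1])
  have h5 : ∀ v, (((List.range N).map fun k => v * N + k + 1).map (· + 4)).filterMap κ = [v] := by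
    intro v
    rw [List.map_map, List.filterMap_map, ← if_pos (k1 v) (t := [v]) (e := []), ← filterMap_range]
    refine List.filterMap_congr fun k hk => ?_
    have hk' := List.mem_range.1 hk
    have a1 : v * N + k + 1 + 4 - 5 = k + N * v := by rw [mul_comm]; omega
    simp only [κ, Function.comp, a1, Nat.add_mul_mod_self_left, Nat.mod_eq_of_lt hk',
      Nat.add_mul_div_left _ _ (Nat.zero_lt_of_lt hk'), Nat.div_eq_of_lt hk', zero_add]
    simp
  have h6 : ∀ A : List ℕ, (gaps h (some 2) (A.flatMap (generic g h N))).filterMap κ = A := by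
    intro A
    induction A with
    | nil => simp [gaps]
    | cons v A ih =>
      rw [List.flatMap_cons, generic, gaps_pieces hgh, List.map_cons, List.filterMap_append, ih,
        List.filterMap_cons_none (by simp [κ]), h5]
      rfl
  refine ⟨_, (h2 κ hκ).symm.trans ?_⟩
  rw [← e]
  cases A with
  | nil => simp [gaps]
  | cons v A =>
    rw [List.flatMap_cons, generic, List.flatMap_cons, piece, List.append_assoc, List.append_assoc,
      List.cons_append, gaps_none hgh]
    simp only [List.cons_append, List.nil_append, gaps, hgh, if_false]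
    rw [gaps_pieces hgh, List.filterMap_append, h5, h6]
    rfl

/-- A variable block between two pinned terminal blocks is determined. -/
theorem block_gen {g h : S} (hgh : g ≠ h) {m i : ℕ} {u : ℕ → List S} {A B : ℕ → List ℕ}
    (hi : i ≤ m) (hA : ∀ j, 1 ≤ j → j < m → A j ≠ [])
    (h1 : 1 ≤ i → ∃ f, Mk g h f ∧ f <:+: u i) (h2 : i < m → ∃ f, Mk g h f ∧ f <:+: u (i + 1))
    (hL : ∀ σ : ℕ → List S, ∃ ψ : ℕ → List S,
      asm u (fun j => (A j).flatMap σ) m = asm u (fun j => (B j).flatMap ψ) m)
    {w : List S} (hw : Gen (A i) w) : Gen (B i) w := by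
  obtain ⟨ψ, e⟩ := hL (generic g h ((B i).length + 1))
  have key : ∀ j, j < m → (∃ f, Mk g h f ∧ f <:+: u (j + 1)) →
      asm u (fun j => (A j).flatMap (generic g h ((B i).length + 1))) j =
        asm u (fun j => (B j).flatMap ψ) j := by
    rintro j hj ⟨f, a1, a2⟩
    refine align_at hj (by rcases a1 with ⟨a, -, -, rfl⟩ | rfl | rfl <;> simp) a2 (fun t ht => ?_) e
    rcases eq_or_ne (A t) [] with c | c
    · refine Or.inr ⟨by simp [c], ?_⟩
      by_contra d
      exact hA t (by omega) (by omega) c
    · exact Or.inl (Tr.flatMap (fun v => Tr.flatMap (tr_piece hgh a1) (by simp)) c)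
  have e1 : asm u (fun j => (A j).flatMap (generic g h ((B i).length + 1))) i =
      asm u (fun j => (B j).flatMap ψ) i := by
    rcases hi.eq_or_lt with rfl | hi
    · exact e
    · exact key i hi (h2 hi)
  have e2 : (A i).flatMap (generic g h ((B i).length + 1)) = (B i).flatMap ψ := by
    cases i with
    | zero => exact e1
    | succ i =>
      rw [asm, asm, key i hi (h1 (by omega))] at e1
      exact List.append_cancel_left e1
  obtain ⟨φ, hφ⟩ := of_generic hgh e2
  obtain ⟨τ, rfl⟩ := hw
  exact ⟨fun y => (φ y).flatMap τ, by rw [← hφ, List.flatMap_assoc]⟩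

end Pool.Agent.Lib.MP_c27bb7_lc
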