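import Mathlib

/-! E-pattern languages and similar patterns. -/

set_option autoImplicit false

namespace Pool.Agent.Lib.MP_c27bb7_lc

/-- The E-pattern language of a word over variables (`Sum.inl`) and terminals (`Sum.inr`):
all images under monoid morphisms fixing the terminals. -/
def ELang {S : Type} (α : List (ℕ ⊕ S)) : Set (List S) :=
  {w | ∃ σ : List (ℕ ⊕ S) → List S, σ [] = [] ∧ (∀ x y, σ (x ++ y) = σ x ++ σ y) ∧
    (∀ s : S, σ [Sum.inr s] = [s]) ∧ σ α = w}

/-- The word `A 0, u 1, A 1, …, u m, A m`. -/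
def assemble {S : Type} (m : ℕ) (u : ℕ → List S) (A : ℕ → List ℕ) : List (ℕ ⊕ S) :=
  (A 0).map Sum.inl ++
    (List.range m).flatMap fun i => (u (i + 1)).map Sum.inr ++ (A (i + 1)).map Sum.inl

/-- The data `m, u, A, B` is a decomposition witnessing that `α` and `β` are similar. -/
def SimilarVia {S : Type} (α β : List (ℕ ⊕ S)) (m : ℕ) (u : ℕ → List S) (A B : ℕ → List ℕ) :
    Prop :=
  α = assemble m u A ∧ β = assemble m u B ∧ (∀ i, 1 ≤ i → i ≤ m → u i ≠ []) ∧
    ∀ i, 1 ≤ i → i < m → A i ≠ [] ∧ B i ≠ []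

end Pool.Agent.Lib.MP_c27bb7_lc
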