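import Mathlib
import Pool.Agent.Lib.MP_c27bb7_lc.Defs
import Pool.Agent.Lib.MP_c27bb7_lc.Absorb
import Pool.Agent.Lib.MP_c27bb7_lc.Align

/-!
The places at which equal E-pattern languages over three letters force equal block languages.
-/

set_option autoImplicit false

namespace Pool.Agent.Lib.MP_c27bb7_lc

open List

theorem mem_ELang {S : Type} (α : List (ℕ ⊕ S)) (w : List S) :
    w ∈ ELang α ↔ ∃ τ : ℕ → List S, α.flatMap (Sum.elim τ fun s => [s]) = w := by
  constructor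
  · rintro ⟨σ, h0, h1, h2, rfl⟩
    refine ⟨fun n => σ [Sum.inl n], ?_⟩
    induction α with
    | nil => simp [h0]
    | cons x α ih =>
      rw [List.flatMap_cons, ih, ← List.singleton_append (l := α), h1]
      cases x <;> simp [h2]
  · rintro ⟨τ, rfl⟩
    exact ⟨fun x => x.flatMap (Sum.elim τ fun s => [s]), rfl, fun x y => List.flatMap_append,
      fun s => by simp, rfl⟩

theorem mem_ELang_vars {S : Type} (p : List ℕ) (w : List S) :
    w ∈ ELang (p.map Sum.inl : List (ℕ ⊕ S)) ↔ Gen p w := by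
  rw [mem_ELang]
  simp [Gen, List.flatMap_map]

theorem assemble_succ {S : Type} (m : ℕ) (u : ℕ → List S) (A : ℕ → List ℕ) :
    assemble (m + 1) u A =
      assemble m u A ++ (u (m + 1)).map Sum.inr ++ (A (m + 1)).map Sum.inl := by
  simp [assemble, List.range_succ]

theorem assemble_zero {S : Type} (u : ℕ → List S) (A : ℕ → List ℕ) :
    assemble 0 u A = (A 0).map Sum.inl := by
  simp [assemble]

theorem mem_assemble {S : Type} (m : ℕ) (u : ℕ → List S) (A : ℕ → List ℕ) (w : List S) :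
    w ∈ ELang (assemble m u A) ↔ ∃ τ : ℕ → List S, asm u (fun j => (A j).flatMap τ) m = w := by
  rw [mem_ELang]
  refine exists_congr fun τ => Eq.congr_left ?_
  induction m with
  | zero => simp [assemble_zero, asm, List.flatMap_map]
  | succ m ih => simp [assemble_succ, asm, ih, List.flatMap_map]

theorem cancel_tail {T : Type} (P : T → Prop) {X X' p p' : List T} (hp : ∀ x ∈ p, P x)
    (hp' : ∀ x ∈ p', P x) (hX : ∀ Y x, X = Y ++ [x] → ¬ P x) (hX' : ∀ Y x, X' = Y ++ [x] → ¬ P x)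
    (h : X ++ p = X' ++ p') : X = X' ∧ p = p' := by
  rcases List.append_eq_append_iff.1 h with ⟨d, rfl, rfl⟩ | ⟨d, rfl, rfl⟩
  · rcases List.eq_nil_or_concat' d with rfl | ⟨Y, x, rfl⟩
    · simp
    · exact absurd (hp x (by simp)) (hX' (X ++ Y) x (by simp))
  · rcases List.eq_nil_or_concat' d with rfl | ⟨Y, x, rfl⟩
    · simp
    · exact absurd (hp' x (by simp)) (hX (X' ++ Y) x (by simp))

theorem last_mem {T : Type} {Z p Y : List T} {x : T} (hp : p ≠ []) (h : Z ++ p = Y ++ [x]) :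
    x ∈ p := by
  rcases List.eq_nil_or_concat' p with rfl | ⟨Y', x', rfl⟩
  · exact absurd rfl hp
  · rw [← List.append_assoc] at h
    simp [List.singleton_inj.1 (List.append_inj_right' h rfl)]

theorem assemble_last {S : Type} {m : ℕ} {u : ℕ → List S} {A : ℕ → List ℕ}
    (h : 1 ≤ m → A m ≠ []) : ∀ Y x, assemble m u A = Y ++ [x] → ¬ x.isRight := by
  intro Y x e
  have : x ∈ (A m).map Sum.inl := by
    cases m with
    | zero => rw [← assemble_zero u, e]; simp
    | succ m => exact last_mem (by simpa using h (by omega)) (assemble_succ m u A ▸ e)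
  obtain ⟨v, -, rfl⟩ := List.mem_map.1 this
  simp

theorem assemble_inj {S : Type} {u u' : ℕ → List S} {A A' : ℕ → List ℕ} (m : ℕ) :
    ∀ m', (∀ j, 1 ≤ j → j ≤ m → u j ≠ []) → (∀ j, 1 ≤ j → j ≤ m' → u' j ≠ []) →
      (∀ j, 1 ≤ j → j < m → A j ≠ []) → (∀ j, 1 ≤ j → j < m' → A' j ≠ []) →
      assemble m u A = assemble m' u' A' → m = m' ∧ ∀ j, j ≤ m → A j = A' j := by
  have hl : ∀ p : List ℕ, ∀ x ∈ (p.map Sum.inl : List (ℕ ⊕ S)), x.isLeft := by simp
  have hr : ∀ p : List S, ∀ x ∈ (p.map Sum.inr : List (ℕ ⊕ S)), x.isRight := by simp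
  have he : ∀ (Z : List (ℕ ⊕ S)) (p : List S), p ≠ [] → ∀ Y x, Z ++ p.map Sum.inr = Y ++ [x] →
      ¬ x.isLeft := fun Z p hp Y x e => by
    obtain ⟨v, -, rfl⟩ := List.mem_map.1 (last_mem (by simpa using hp) e)
    simp
  induction m with
  | zero =>
    rintro (_ | m') - h2 - - e
    · rw [assemble_zero, assemble_zero] at e
      exact ⟨rfl, fun j hj => by
        rw [Nat.le_zero.1 hj]; exact List.map_injective_iff.2 Sum.inl_injective e⟩
    · rw [assemble_zero, assemble_succ] at e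
      have := (cancel_tail (fun x => x.isLeft) (X := []) (hl _) (hl _) (by simp)
        (he _ _ (h2 _ (by omega) le_rfl)) e).1
      simp [h2 (m' + 1) (by omega) le_rfl] at this
  | succ m ih =>
    rintro (_ | m') h1 h2 h3 h4 e
    · rw [assemble_zero, assemble_succ] at e
      have := (cancel_tail (fun x => x.isLeft) (X := []) (hl _) (hl _) (by simp)
        (he _ _ (h1 _ (by omega) le_rfl)) e.symm).1
      simp [h1 (m + 1) (by omega) le_rfl] at this
    · rw [assemble_succ, assemble_succ] at e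
      obtain ⟨e1, e2⟩ := cancel_tail (fun x => x.isLeft) (hl _) (hl _)
        (he _ _ (h1 _ (by omega) le_rfl)) (he _ _ (h2 _ (by omega) le_rfl)) e
      obtain ⟨e3, -⟩ := cancel_tail (fun x => x.isRight) (hr _) (hr _)
        (assemble_last fun k => h3 m k (by omega)) (assemble_last fun k => h4 m' k (by omega)) e1
      obtain ⟨rfl, e4⟩ := ih m' (fun j a b => h1 j a (by omega)) (fun j a b => h2 j a (by omega))
        (fun j a b => h3 j a (by omega)) (fun j a b => h4 j a (by omega)) e3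
      refine ⟨rfl, fun j hj => ?_⟩
      rcases hj.eq_or_lt with rfl | hj
      · exact List.map_injective_iff.2 Sum.inl_injective e2
      · exact e4 j (by omega)

theorem asm_congr {T : Type} {u W W' : ℕ → List T} (n : ℕ) (h : ∀ j, j ≤ n → W j = W' j) :
    asm u W n = asm u W' n := by
  induction n with
  | zero => exact h 0 le_rfl
  | succ n ih => rw [asm, asm, ih fun j hj => h j (by omega), h _ le_rfl]

theorem tl_congr {T : Type} {u W W' : ℕ → List T} (k : ℕ) :
    ∀ i, (∀ j, i < j → W j = W' j) → tl u W k i = tl u W' k i := by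
  induction k with
  | zero => intro _ _; rfl
  | succ k ih => intro i h; rw [tl, tl, ih _ fun j hj => h j (by omega), h _ (by omega)]

/-- the block `E` at place `i` and a free variable at every other place -/
def lone (i : ℕ) (E : List ℕ) (j : ℕ) : List ℕ :=
  if j = i then E.map fun n => 2 * n + 1 else [2 * j]

theorem gen_lone {S : Type} (i : ℕ) (E : List ℕ) (w : List S) : Gen (lone i E i) w ↔ Gen E w := by
  have h2 : ∀ n : ℕ, (2 * n + 1) / 2 = n := fun n => by omega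
  rw [lone, if_pos rfl]
  constructor
  · rintro ⟨σ, rfl⟩
    exact ⟨fun n => σ (2 * n + 1), by rw [List.flatMap_map]⟩
  · rintro ⟨σ, rfl⟩
    exact ⟨fun n => σ (n / 2), by simp [List.flatMap_map, h2]⟩

theorem mem_lone {S : Type} (m i : ℕ) (u : ℕ → List S) (E : List ℕ) (w : List S) :
    w ∈ ELang (assemble m u (lone i E)) ↔ ∃ W : ℕ → List S, Gen E (W i) ∧ asm u W m = w := by
  rw [mem_assemble]
  constructor
  · rintro ⟨τ, rfl⟩
    exact ⟨_, (gen_lone i E _).1 ⟨τ, rfl⟩, rfl⟩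
  · rintro ⟨W, ⟨σ, hσ⟩, rfl⟩
    refine ⟨fun n => if n % 2 = 0 then W (n / 2) else σ (n / 2), asm_congr m fun j _ => ?_⟩
    have h1 : ∀ n : ℕ, (2 * n + 1) % 2 = 1 := fun n => by omega
    have h2 : ∀ n : ℕ, (2 * n + 1) / 2 = n := fun n => by omega
    rw [lone]
    split_ifs with h
    · simp [List.flatMap_map, h1, h2, hσ, h]
    · simp

theorem lone_eq {S : Type} {m i : ℕ} {u : ℕ → List S} {E E' : List ℕ} (h1 : 1 ≤ i) (h2 : i < m)
    (k1 : ∀ w : List S, Gen E w → Gen E' w) (k2 : ∀ w : List S, Gen E' w →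
      ∃ p w' q, u i ++ w ++ u (i + 1) = p ++ u i ++ w' ++ u (i + 1) ++ q ∧ Gen E w') :
    ELang (assemble m u (lone i E)) = ELang (assemble m u (lone i E')) := by
  ext w
  rw [mem_lone, mem_lone]
  refine ⟨fun ⟨W, a, b⟩ => ⟨W, k1 _ a, b⟩, ?_⟩
  rintro ⟨W, a, rfl⟩
  obtain ⟨p, w', q, e, g⟩ := k2 _ a
  obtain ⟨i, rfl⟩ : ∃ t, i = t + 1 := ⟨i - 1, by omega⟩
  obtain ⟨k, rfl⟩ : ∃ k, m = i + 1 + (k + 1) := ⟨m - i - 2, by omega⟩
  set W' : ℕ → List S := fun j => if j = i then W j ++ p else if j = i + 1 then w' else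
    if j = i + 1 + 1 then q ++ W j else W j with hW
  have a1 : asm u W' i = asm u W i ++ p := by
    cases i with
    | zero => simp [asm, hW]
    | succ i =>
      rw [asm, asm, asm_congr (W := W') (W' := W) i fun j hj => by
        simp only [hW]; rw [if_neg (by omega), if_neg (by omega), if_neg (by omega)]]
      simp [hW]
  have a2 : W' (i + 1) = w' := by simp [hW]
  have a3 : W' (i + 1 + 1) = q ++ W (i + 1 + 1) := by
    simp only [hW]; rw [if_neg (by omega), if_neg (by omega), if_pos trivial]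
  have a4 : tl u W' k (i + 1 + 1) = tl u W k (i + 1 + 1) := tl_congr k _ fun j hj => by
    simp only [hW]; rw [if_neg (by omega), if_neg (by omega), if_neg (by omega)]
  refine ⟨W', a2 ▸ g, ?_⟩
  rw [asm_add u W' (k + 1), asm_add u W (k + 1), asm, asm, tl, tl, a1, a2, a3, a4]
  have := congrArg (fun x => asm u W i ++ x ++ (W (i + 1 + 1) ++ tl u W k (i + 1 + 1))) e
  simpa using this.symm

section

variable {S : Type} [Fintype S] [DecidableEq S] (hS : Fintype.card S = 3)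

include hS

theorem all_three {x y z : S} (h1 : x ≠ y) (h2 : x ≠ z) (h3 : y ≠ z) (t : S) :
    t = x ∨ t = y ∨ t = z := by
  have : ({x, y, z} : Finset S) = Finset.univ :=
    Finset.eq_univ_of_card _ (by rw [hS, Finset.card_eq_three]; exact ⟨x, y, z, h1, h2, h3, rfl⟩)
  have h := Finset.mem_univ t
  rw [← this] at h
  simpa using h

theorem third (x y : S) : ∃ z, x ≠ z ∧ y ≠ z := by
  obtain ⟨z, -, hz⟩ := Finset.exists_mem_notMem_of_card_lt_card (s := {x, y}) (t := Finset.univ)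
    (by rw [Finset.card_univ, hS]; exact Nat.lt_succ_of_le Finset.card_le_two)
  exact ⟨z, fun h => hz (by simp [h]), fun h => hz (by simp [h])⟩

theorem repeat_marks {a : S} {v : List S} (ha : a ∉ v) (hv : ¬ v.Nodup) :
    ∃ g h, g ≠ h ∧ Mk g h [a] ∧ ∃ f, Mk g h f ∧ f <:+: v := by
  rcases v with _ | ⟨x, _ | ⟨y, t⟩⟩
  · simp at hv
  · simp at hv
  simp only [List.mem_cons, not_or] at ha
  by_cases h1 : x = y
  · obtain ⟨g, k1, k2⟩ := third hS a x
    exact ⟨g, x, k2.symm, Or.inl ⟨a, k1, ha.1, rfl⟩, _, Or.inr (Or.inl rfl), [], t, by simp [h1]⟩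
  rcases t with _ | ⟨z, t⟩
  · simp [h1] at hv
  rcases all_three hS ha.1 ha.2.1 h1 z with rfl | rfl | rfl
  · simp at ha
  · exact ⟨y, z, Ne.symm h1, Or.inl ⟨a, ha.2.1, ha.1, rfl⟩, _, Or.inr (Or.inr rfl), [], t, by simp⟩
  · exact ⟨x, z, h1, Or.inl ⟨a, ha.1, ha.2.1, rfl⟩, _, Or.inr (Or.inl rfl), [x], t, by simp⟩

theorem exists_marks {u v : List S} (hu : u ≠ []) (hv : v ≠ []) (h : ¬ (u ++ v).Nodup) :
    ∃ g h, g ≠ h ∧ (∃ f, Mk g h f ∧ f <:+: u) ∧ ∃ f, Mk g h f ∧ f <:+: v := by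
  by_cases hd : ∃ a, a ∈ u ∧ a ∈ v
  · obtain ⟨a, h1, h2⟩ := hd
    obtain ⟨g, k1, -⟩ := third hS a a
    obtain ⟨h, k2, k3⟩ := third hS a g
    exact ⟨g, h, k3, ⟨_, Or.inl ⟨a, k1, k2, rfl⟩, (List.singleton_infix_iff _ _).2 h1⟩,
      _, Or.inl ⟨a, k1, k2, rfl⟩, (List.singleton_infix_iff _ _).2 h2⟩
  obtain ⟨a, ha⟩ := List.exists_mem_of_ne_nil u hu
  obtain ⟨b, hb⟩ := List.exists_mem_of_ne_nil v hv
  by_cases h1 : v.Nodup
  · obtain ⟨g, h', k1, k2, k3⟩ := repeat_marks hS (a := b) (v := u) (fun k => hd ⟨b, k, hb⟩)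
      fun k => h (List.nodup_append.2 ⟨k, h1, fun x hx y hy e => hd ⟨x, hx, e ▸ hy⟩⟩)
    exact ⟨g, h', k1, k3, _, k2, (List.singleton_infix_iff _ _).2 hb⟩
  · obtain ⟨g, h', k1, k2, k3⟩ := repeat_marks hS (a := a) (fun k => hd ⟨a, ha, k⟩) h1
    exact ⟨g, h', k1, ⟨_, k2, (List.singleton_infix_iff _ _).2 ha⟩, k3⟩

omit hS [Fintype S] [DecidableEq S] in
theorem Gen.reverse {E : List ℕ} {w : List S} (h : Gen E w) : Gen E.reverse w.reverse := by
  obtain ⟨σ, rfl⟩ := h
  exact ⟨fun n => (σ n).reverse, by rw [List.reverse_flatMap]; rfl⟩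

theorem exists_pair_nodup {u v : List S} (hu : u ≠ []) (hv : v ≠ []) (h : (u ++ v).Nodup) :
    ∃ E E' : List ℕ, E ≠ [] ∧ E' ≠ [] ∧ (∀ w : List S, Gen E w → Gen E' w) ∧
      (∃ w : List S, Gen E' w ∧ ¬ Gen E w) ∧
      ∀ w : List S, Gen E' w → ∃ p w' q, u ++ w ++ v = p ++ u ++ w' ++ v ++ q ∧ Gen E w' := by
  have hl := h.length_le_card
  rw [hS] at hl
  rcases u with _ | ⟨x, _ | ⟨y, u⟩⟩
  · exact absurd rfl hu
  · rcases v with _ | ⟨y, _ | ⟨z, v⟩⟩
    · exact absurd rfl hv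
    · have h1 : x ≠ y := by simpa using h
      obtain ⟨z, k1, k2⟩ := third hS x y
      exact exists_pair (all_three hS h1 k1 k2) h1 k1 k2 (Or.inl rfl)
    · obtain rfl : v = [] := List.length_eq_zero_iff.1 (by simp at hl; omega)
      have h1 : (x ≠ y ∧ x ≠ z) ∧ y ≠ z := by simpa using h
      obtain ⟨E, E', a1, a2, a3, ⟨w, a4, a5⟩, a6⟩ := exists_pair
        (all_three hS h1.1.1.symm h1.2 h1.1.2) h1.1.1.symm h1.2 h1.1.2 (Or.inr rfl)
      refine ⟨E.reverse, E'.reverse, by simpa using a1, by simpa using a2,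
        fun t ht => by simpa using (a3 t.reverse (by simpa using ht.reverse)).reverse,
        ⟨_, a4.reverse, fun k => a5 (by simpa using k.reverse)⟩, fun t ht => ?_⟩
      obtain ⟨p, w', q, e, g⟩ := a6 t.reverse (by simpa using ht.reverse)
      exact ⟨q.reverse, w'.reverse, p.reverse, by simpa using congrArg List.reverse e, g.reverse⟩
  · obtain ⟨z, v, rfl⟩ := List.exists_cons_of_ne_nil hv
    obtain ⟨rfl, rfl⟩ : u = [] ∧ v = [] := by
      simp only [List.length_append, List.length_cons] at hl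
      exact ⟨List.length_eq_zero_iff.1 (by omega), List.length_eq_zero_iff.1 (by omega)⟩
    have h1 : (x ≠ y ∧ x ≠ z) ∧ y ≠ z := by simpa using h
    exact exists_pair (all_three hS h1.2 h1.1.1.symm h1.1.2.symm) h1.2 h1.1.1.symm h1.1.2.symm
      (Or.inr rfl)

theorem forced {m i : ℕ} {u : ℕ → List S} {A B : ℕ → List ℕ} (hi : i ≤ m)
    (hu : ∀ j, 1 ≤ j → j ≤ m → u j ≠ []) (hA : ∀ j, 1 ≤ j → j < m → A j ≠ [])
    (hn : ¬ (1 ≤ i ∧ i < m ∧ (u i ++ u (i + 1)).Nodup))
    (hL : ELang (assemble m u A) = ELang (assemble m u B)) {w : List S} (hw : Gen (A i) w) :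
    Gen (B i) w := by
  have self : ∀ v : List S, v ≠ [] → ∃ g h, g ≠ h ∧ ∃ f, Mk g h f ∧ f <:+: v := fun v hv => by
    obtain ⟨a, ha⟩ := List.exists_mem_of_ne_nil v hv
    obtain ⟨g, h, k1, k2, -⟩ := exists_marks hS hv hv fun k =>
      (List.nodup_append.1 k).2.2 a ha a ha rfl
    exact ⟨g, h, k1, k2⟩
  obtain ⟨g, h, k1, k2, k3⟩ : ∃ g h : S, g ≠ h ∧ (1 ≤ i → ∃ f, Mk g h f ∧ f <:+: u i) ∧
      (i < m → ∃ f, Mk g h f ∧ f <:+: u (i + 1)) := by
    by_cases h1 : 1 ≤ i <;> by_cases h2 : i < m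
    · obtain ⟨g, h, k1, k2, k3⟩ := exists_marks hS (hu i h1 hi) (hu (i + 1) (by omega) h2)
        fun k => hn ⟨h1, h2, k⟩
      exact ⟨g, h, k1, fun _ => k2, fun _ => k3⟩
    · obtain ⟨g, h, k1, k2⟩ := self _ (hu i h1 hi)
      exact ⟨g, h, k1, fun _ => k2, fun k => absurd k h2⟩
    · obtain ⟨g, h, k1, k2⟩ := self _ (hu (i + 1) (by omega) h2)
      exact ⟨g, h, k1, fun k => absurd k h1, fun _ => k2⟩
    · obtain ⟨g, h, k⟩ := Fintype.exists_pair_of_one_lt_card (α := S) (by omega)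
      exact ⟨g, h, k, fun k => absurd k h1, fun k => absurd k h2⟩
  refine block_gen k1 hi hA k2 k3 (fun σ => ?_) hw
  obtain ⟨ψ, e⟩ := (mem_assemble m u B _).1 (hL ▸ (mem_assemble m u A _).2 ⟨σ, rfl⟩)
  exact ⟨ψ, e.symm⟩

end

end Pool.Agent.Lib.MP_c27bb7_lc
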